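import Pool.Agent.H.MP_c8915d_al.B

namespace Pool.Agent.Results.MP_c8915d_al.No

open Pool.Agent.H.MP_c8915d_al

theorem result : ∃ S : Cond, LGP Alg.Idem S ∧ ¬ LGP (fun _ => True) S :=
  ⟨S3, lgp_idem, not_lgp⟩

end Pool.Agent.Results.MP_c8915d_al.No
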